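import Pool.Agent.Lib.P932050.Final

set_option autoImplicit false

/-!
Uniform linear bound for equi-isoclinic subspaces: for all `k ≥ 1` and `α ∈ [0,1]` there is a
constant `C` (depending on `k` and `α`) such that every finite family of distinct `k`-dimensional
subspaces of `ℝ^d`, pairwise equi-isoclinic with angle `α`, has at most `2 d + C √d` members.
-/

namespace Pool.Agent.Results.MP_932050_co.UniformConstant

/-- `U` and `V` are equi-isoclinic with angle `α`: the orthogonal projection onto `V` of each unit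
vector of `U` has norm `α`. -/
def EquiIsoclinic {E : Type} [NormedAddCommGroup E] [InnerProductSpace ℝ E]
    [FiniteDimensional ℝ E] (α : ℝ) (U V : Submodule ℝ E) : Prop :=
  ∀ u ∈ U, ‖u‖ = 1 → ‖V.starProjection u‖ = α

/-- A finite set of `k`-dimensional subspaces, every two distinct members of which are
equi-isoclinic with angle `α`. -/
def IsFamily {E : Type} [NormedAddCommGroup E] [InnerProductSpace ℝ E]
    [FiniteDimensional ℝ E] (k : ℕ) (α : ℝ) (S : Finset (Submodule ℝ E)) : Prop :=
  (∀ U ∈ S, Module.finrank ℝ U = k) ∧ ∀ U ∈ S, ∀ V ∈ S, U ≠ V → EquiIsoclinic α U V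

theorem result :
    ∀ k : ℕ, 1 ≤ k → ∀ α : ℝ, 0 ≤ α → α ≤ 1 →
      ∃ C : ℝ, 0 ≤ C ∧ ∀ d : ℕ, k ≤ d →
        ∀ S : Finset (Submodule ℝ (EuclideanSpace ℝ (Fin d))), IsFamily k α S →
          (S.card : ℝ) ≤ 2 * d + C * Real.sqrt d := by
  intro k hk α hα0 hα1
  obtain ⟨C, hC0, hC⟩ := Pool.Agent.Lib.P932050.main k hk α hα0 hα1
  refine ⟨C, hC0, fun d hd S hS => hC d hd S hS.1 fun U hU V hV hne u hu hu1 => ?_⟩
  have := hS.2 U hU V hV hne u hu hu1
  rw [Submodule.starProjection_apply] at this
  exact this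

end Pool.Agent.Results.MP_932050_co.UniformConstant
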